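import Pool.Agent.Helper19.SQ.GoalsH

/-!
Project SQ (MP_bb32d1_al), packet HTOP: the top exponent is the unique admissible exponent of
maximal height.
-/

namespace Pool.Agent.Helper23.SQ

open Pool.Agent.Helper19.SQ

theorem term_le (N l : ℕ) (b : ℕ → ℕ → ℕ) (hb : IsEx N l b) (i j : ℕ) :
    b i j * (j - i) ≤ topE N l i j * (j - i) := by
  apply Nat.mul_le_mul_right
  by_cases h : i < j ∧ j ≤ N
  · have h1 := (hb i j).1 h
    simp only [topE, if_pos h]
    omega
  · rw [(hb i j).2 h]
    exact Nat.zero_le _

theorem s_htop : S_HTOP := by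
  intro N l b hb
  refine ⟨?_, ?_⟩
  · unfold ht
    exact Finset.sum_le_sum fun i _ => Finset.sum_le_sum fun j _ => term_le N l b hb i j
  · intro he
    unfold ht at he
    have h1 := (Finset.sum_eq_sum_iff_of_le
      (fun i _ => Finset.sum_le_sum fun j _ => term_le N l b hb i j)).1 he
    funext i j
    by_cases h : i < j ∧ j ≤ N
    · have hi : i ∈ Finset.range (N + 1) := Finset.mem_range.2 (by omega)
      have hj : j ∈ Finset.range (N + 1) := Finset.mem_range.2 (by omega)
      have h2 := (Finset.sum_eq_sum_iff_of_le (fun j _ => term_le N l b hb i j)).1 (h1 i hi) j hj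
      exact Nat.eq_of_mul_eq_mul_right (by omega) h2
    · rw [(hb i j).2 h]
      simp only [topE, if_neg h]

end Pool.Agent.Helper23.SQ
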